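import Pool.Agent.Helper17.CT.Piece

set_option autoImplicit false

/-!
# FS-2: tracing computes the components of a path system (MP_16e137_co)
-/

namespace Pool.Agent.Helper17.CT

namespace Trs

/-! ### bits and digits -/

lemma tb_eq (a i : ℕ) : tb a i = a.testBit i := by
  have h : tb a i = Nat.beq ((a >>> i) % 2) 1 := rfl
  rw [h, Nat.testBit_eq_decide_div_mod_eq, Nat.shiftRight_eq_div_pow]
  by_cases h1 : a / 2 ^ i % 2 = 1
  · rw [h1]; rfl
  · have h2 : Nat.beq (a / 2 ^ i % 2) 1 = false := by
      rw [← Bool.not_eq_true, Nat.beq_eq]; exact h1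
    rw [h2]; simp [h1]

lemma d4_testBit (a i l : ℕ) : (d4 a i).testBit l = (decide (l < 4) && a.testBit (4 * i + l)) := by
  have h : d4 a i = (a >>> (4 * i)) % 2 ^ 4 := rfl
  rw [h, Nat.testBit_mod_two_pow, Nat.testBit_shiftRight]

lemma d4_lt (a i : ℕ) : d4 a i < 16 := by
  have h : d4 a i = (a >>> (4 * i)) % 16 := rfl
  rw [h]
  exact Nat.mod_lt _ (by norm_num)

lemma d4_lor (a b i : ℕ) : d4 (a ||| b) i = d4 a i ||| d4 b i := by
  apply Nat.eq_of_testBit_eq
  intro l
  rw [Nat.testBit_or, d4_testBit, d4_testBit, d4_testBit, Nat.testBit_or]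
  cases decide (l < 4) <;> simp

lemma d4_shift (v j i : ℕ) (hv : v < 16) : d4 (v <<< (4 * j)) i = if i = j then v else 0 := by
  apply Nat.eq_of_testBit_eq
  intro l
  rw [d4_testBit, Nat.testBit_shiftLeft]
  have hv' : ∀ q, 4 ≤ q → v.testBit q = false := fun q hq =>
    Nat.testBit_lt_two_pow (lt_of_lt_of_le hv (by
      calc 16 = 2 ^ 4 := by norm_num
        _ ≤ 2 ^ q := Nat.pow_le_pow_right (by norm_num) hq))
  by_cases hl : l < 4
  · by_cases hij : i = j
    · subst hij
      simp only [hl, decide_true, Bool.true_and, ge_iff_le, Nat.le_add_right, if_true,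
        Nat.add_sub_cancel_left]
    · simp only [hl, decide_true, Bool.true_and, if_neg hij, Nat.zero_testBit]
      rcases Nat.lt_or_gt_of_ne hij with h | h
      · have : ¬ (4 * j ≤ 4 * i + l) := by omega
        simp [this]
      · rw [hv' _ (by omega)]
        simp
  · by_cases hij : i = j
    · subst hij
      simp only [hl, decide_false, Bool.false_and, if_true]
      exact (hv' l (by omega)).symm
    · simp [hl, if_neg hij]

/-! ### the abstract walk -/

section abs

variable {I : Type} {k : ℕ} (P : Inner I k) (t : I → Bool)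

/-- the other used dart at the vertex -/
def oo (x : I) : I := if t (P.s x) = true then P.s x else P.s (P.s x)

/-- the next entering dart -/
def gg (x : I) : I := P.e (oo P t x)

variable {P t}

lemma ss_ne (x : I) : P.s (P.s x) ≠ x := by
  intro h
  have h2 := P.s3 x
  rw [h] at h2
  exact P.s1 x h2

lemma oo_spec (hF : FacF P t) {x : I} (hx : t x = true) :
    t (oo P t x) = true ∧ oo P t x ≠ x ∧ oo P t (oo P t x) = x ∧
      ∀ z, (z = P.s x ∨ z = P.s (P.s x)) → t z = true → z = oo P t x := by
  have h1 := hF.one x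
  unfold One at h1
  rw [hx] at h1
  unfold oo
  by_cases h2 : t (P.s x) = true
  · have h3 : t (P.s (P.s x)) = false := by
      rcases h1 with h | h | h
      · exact absurd h.1 (by simp)
      · rw [h2] at h; exact absurd h.2.1 (by simp)
      · exact h.2.2
    rw [if_pos h2]
    refine ⟨h2, P.s1 x, ?_, ?_⟩
    · rw [if_neg (by rw [h3]; simp), P.s3]
    · rintro z (rfl | rfl) hz
      · rfl
      · rw [h3] at hz; exact absurd hz (by simp)
  · have h2' : t (P.s x) = false := by simpa using h2
    have h3 : t (P.s (P.s x)) = true := by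
      rcases h1 with h | h | h
      · exact absurd h.1 (by simp)
      · exact h.2.2
      · rw [h2'] at h; exact absurd h.2.1 (by simp)
    rw [if_neg h2]
    refine ⟨h3, ss_ne x, ?_, ?_⟩
    · rw [P.s3, if_pos hx]
    · rintro z (rfl | rfl) hz
      · exact absurd hz h2
      · rfl

lemma stepF_symm {x y : I} (h : StepF P t id x y) : StepF P t id y x := by
  obtain ⟨h1, h2, h3⟩ := h
  refine ⟨h2, h1, ?_⟩
  rcases h3 with h | h | ⟨h, h'⟩ | ⟨j, h, h'⟩
  · right; left; rw [h, P.s3]
  · left; rw [h, P.s3]
  · right; right; left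
    refine ⟨fun j => ?_, ?_⟩
    · rw [h']; exact P.eq x h j
    · rw [h', P.e2 x h]
  · right; right; right
    exact ⟨j, by rw [h', id_eq], by rw [h, id_eq]⟩

lemma cn_symm {x y : I} (h : Cn P t x y) : Cn P t y x := by
  induction h with
  | refl => exact .refl
  | tail _ h ih => exact .head (stepF_symm h) ih

/-- a walk that enters at the port `j`, has `r + 1` vertices and ends at the port `j'` -/
structure Walk (P : Inner I k) (t : I → Bool) (x0 : I) (r : ℕ) (j' : Fin k) : Prop where
  np : ∀ i < r, ∀ l, oo P t ((gg P t)^[i] x0) ≠ P.q l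
  fin : oo P t ((gg P t)^[r] x0) = P.q j'

/-- the darts of a walk -/
def InS (P : Inner I k) (t : I → Bool) (x0 : I) (r : ℕ) (z : I) : Prop :=
  ∃ i ≤ r, z = (gg P t)^[i] x0 ∨ z = oo P t ((gg P t)^[i] x0)

variable {x0 : I} {r : ℕ} {j j' : Fin k}

lemma used (hF : FacF P t) (hW : Walk P t x0 r j') (hx : t x0 = true) :
    ∀ i ≤ r, t ((gg P t)^[i] x0) = true := by
  intro i
  induction i with
  | zero => intro _; exact hx
  | succ i ih =>
    intro hi
    have h1 := ih (by omega)
    rw [Function.iterate_succ_apply']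
    change t (P.e (oo P t ((gg P t)^[i] x0))) = true
    rw [hF.ecl _ (fun l => hW.np i (by omega) l)]
    exact (oo_spec hF h1).1

lemma closed (hF : FacF P t) (hx : t x0 = true) (hj : x0 = P.q j) (hW : Walk P t x0 r j') {z z' : I}
    (hz : InS P t x0 r z) (h : StepF P t id z z') : InS P t x0 r z' := by
  have hus := used hF hW hx
  obtain ⟨i, hi, h1⟩ := hz
  obtain ⟨h2, h3, h4⟩ := h
  have hX := hus i hi
  obtain ⟨a1, a2, a3, a4⟩ := oo_spec hF hX
  obtain ⟨b1, b2, b3, b4⟩ := oo_spec hF a1
  have vert : (z' = P.s z ∨ z' = P.s (P.s z)) → InS P t x0 r z' := by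
    intro h5
    rcases h1 with rfl | rfl
    · exact ⟨i, hi, Or.inr (a4 z' h5 h3)⟩
    · refine ⟨i, hi, Or.inl ?_⟩
      rw [b4 z' h5 h3, a3]
  rcases h4 with h | h | ⟨h, h'⟩ | ⟨l, h, h'⟩
  · exact vert (Or.inl h)
  · exact vert (Or.inr h)
  · rcases h1 with rfl | rfl
    · rcases i with _ | i
      · exact absurd hj (h j)
      · rw [Function.iterate_succ_apply'] at h'
        change z' = P.e (P.e (oo P t ((gg P t)^[i] x0))) at h'
        rw [P.e2 _ (fun l => hW.np i (by omega) l)] at h'
        exact ⟨i, by omega, Or.inr h'⟩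
    · rcases Nat.lt_or_ge i r with hir | hir
      · refine ⟨i + 1, by omega, Or.inl ?_⟩
        rw [Function.iterate_succ_apply']
        exact h'
      · have hir' : i = r := by omega
        rw [hir'] at h
        exact absurd hW.fin (h j')
  · refine ⟨i, hi, ?_⟩
    rw [h', id_eq, ← h]
    exact h1

lemma conn (hF : FacF P t) (hx : t x0 = true) (hW : Walk P t x0 r j') :
    ∀ i ≤ r, Cn P t x0 ((gg P t)^[i] x0) ∧ Cn P t x0 (oo P t ((gg P t)^[i] x0)) := by
  have hus := used hF hW hx
  have stepo : ∀ z, t z = true → StepF P t id z (oo P t z) := by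
    intro z hz
    refine ⟨hz, (oo_spec hF hz).1, ?_⟩
    unfold oo
    split_ifs
    · left; rfl
    · right; left; rfl
  intro i
  induction i with
  | zero =>
    intro _
    exact ⟨.refl, .single (stepo _ hx)⟩
  | succ i ih =>
    intro hi
    obtain ⟨h1, h2⟩ := ih (by omega)
    have h3 : Cn P t x0 ((gg P t)^[i + 1] x0) := by
      refine h2.tail ?_
      rw [Function.iterate_succ_apply']
      refine ⟨(oo_spec hF (hus i (by omega))).1, ?_, Or.inr (Or.inr (Or.inl ?_))⟩
      · have := hus (i + 1) hi
        rwa [Function.iterate_succ_apply'] at this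
      · exact ⟨fun l => hW.np i (by omega) l, rfl⟩
    exact ⟨h3, h3.tail (stepo _ (hus (i + 1) hi))⟩

lemma cn_iff (hF : FacF P t) (hx : t x0 = true) (hj : x0 = P.q j) (hW : Walk P t x0 r j') (z : I) :
    Cn P t x0 z ↔ InS P t x0 r z := by
  constructor
  · intro h
    induction h with
    | refl => exact ⟨0, by omega, Or.inl rfl⟩
    | tail _ h ih => exact closed hF hx hj hW ih h
  · rintro ⟨i, hi, rfl | rfl⟩
    · exact (conn hF hx hW i hi).1
    · exact (conn hF hx hW i hi).2

lemma ports (hW : Walk P t x0 r j') {l : Fin k} (h : InS P t x0 r (P.q l)) :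
    P.q l = x0 ∨ l = j' := by
  obtain ⟨i, hi, h | h⟩ := h
  · rcases i with _ | i
    · left; exact h
    · exfalso
      rw [Function.iterate_succ_apply'] at h
      exact P.eq _ (fun l => hW.np i (by omega) l) l h.symm
  · rcases Nat.lt_or_ge i r with hir | hir
    · exact absurd h.symm (hW.np i hir l)
    · have hir' : i = r := by omega
      subst hir'
      right
      rw [hW.fin] at h
      exact P.qi h

lemma ne (hF : FacF P t) (hx : t x0 = true) (hj : x0 = P.q j) (hW : Walk P t x0 r j') :
    j' ≠ j := by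
  intro hjj
  subst hjj
  have hus := used hF hW hx
  have hr : oo P t ((gg P t)^[r] x0) = x0 := by rw [hW.fin, hj]
  have key : ∀ i ≤ r, (gg P t)^[r - i] x0 = oo P t ((gg P t)^[i] x0) := by
    intro i
    induction i with
    | zero =>
      intro _
      have h1 := (oo_spec hF (hus r le_rfl)).2.2.1
      rw [hr] at h1
      exact h1.symm
    | succ i ih =>
      intro hi
      have h1 := ih (by omega)
      have h2 : r - i = (r - (i + 1)) + 1 := by omega
      rw [h2, Function.iterate_succ_apply'] at h1
      change P.e (oo P t ((gg P t)^[r - (i + 1)] x0)) = _ at h1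
      have h3 := congrArg P.e h1
      rw [P.e2 _ (fun l => hW.np _ (by omega) l)] at h3
      rw [Function.iterate_succ_apply']
      change _ = oo P t (P.e (oo P t ((gg P t)^[i] x0)))
      rw [← h3]
      exact ((oo_spec hF (hus (r - (i + 1)) (by omega))).2.2.1).symm
  rcases Nat.even_or_odd' r with ⟨c, hc | hc⟩
  · have h1 := key c (by omega)
    have h2 : r - c = c := by omega
    rw [h2] at h1
    exact (oo_spec hF (hus c (by omega))).2.1 h1.symm
  · have h1 := key c (by omega)
    have h2 : r - c = c + 1 := by omega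
    rw [h2, Function.iterate_succ_apply'] at h1
    exact P.e1 _ (fun l => hW.np c (by omega) l) h1

end abs

/-! ### the program -/

section prog

variable {F : Code} (hF : CodeOK F) {t : Fin (3 * F.n) → Bool} {u : ℕ → Bool}

lemma oth_eq (hu : ∀ x : Fin (3 * F.n), u x = t x) (x : Fin (3 * F.n)) :
    oth u x = (oo (piece F hF) t x : Fin (3 * F.n)) := by
  have h : oth u x = cond (u (nx x)) (nx x) (nx (nx x)) := rfl
  have h1 : u (nx x) = t ((piece F hF).s x) := hu ((piece F hF).s x)
  rw [h, h1]
  unfold oo
  cases t ((piece F hF).s x)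
  · simp only [cond_false, Bool.false_eq_true, if_false]; rfl
  · simp only [cond_true, if_true]; rfl

lemma tb_lor (a b i : ℕ) : tb (a ||| b) i = (tb a i || tb b i) := by
  rw [tb_eq, tb_eq, tb_eq, Nat.testBit_or]

lemma tb_one (v i : ℕ) : tb (1 <<< v) i = true ↔ i = v := by
  rw [tb_eq, Nat.testBit_shiftLeft]
  constructor
  · intro h
    simp only [ge_iff_le, Bool.and_eq_true, decide_eq_true_eq] at h
    obtain ⟨h1, h2⟩ := h
    rw [Nat.testBit_one_eq_true_iff_self_eq_zero] at h2
    omega
  · rintro rfl
    simp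

lemma tr_spec (hu : ∀ x : Fin (3 * F.n), u x = t x) :
    ∀ (f : ℕ) (x : Fin (3 * F.n)) (cov j' cov' : ℕ), tr F u f x cov = some (j', cov') →
      ∃ (r : ℕ) (jj : Fin F.k), (jj : ℕ) = j' ∧ Walk (piece F hF) t x r jj ∧
        ∀ v, tb cov' v = true ↔ tb cov v = true ∨
          ∃ i ≤ r, (((gg (piece F hF) t)^[i] x : Fin (3 * F.n)) : ℕ) / 3 = v := by
  intro f
  induction f with
  | zero => intro x cov j' cov' h; exact absurd h (by simp [tr])
  | succ f ih =>
    intro x cov j' cov' h
    have h0 : tr F u (f + 1) x cov = match d4 F.P (oth u x) with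
      | 0 => tr F u f (d6 F.E (oth u x)) (cov ||| (1 <<< ((x : ℕ) / 3)))
      | j + 1 => some (j, cov ||| (1 <<< ((x : ℕ) / 3))) := rfl
    rw [h0, oth_eq hF hu x] at h
    set y := oo (piece F hF) t x with hy
    have hcov : ∀ v, tb (cov ||| (1 <<< ((x : ℕ) / 3))) v = true ↔
        tb cov v = true ∨ (x : ℕ) / 3 = v := by
      intro v
      rw [tb_lor, Bool.or_eq_true, tb_one]
      constructor
      · rintro (h | h)
        · exact Or.inl h
        · exact Or.inr h.symm
      · rintro (h | h)
        · exact Or.inl h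
        · exact Or.inr h.symm
    by_cases hP : d4 F.P y = 0
    · rw [hP] at h
      simp only at h
      have hnp : ∀ l, y ≠ (piece F hF).q l := (port_iff hF y).2 hP
      obtain ⟨r, jj, h1, h2, h3⟩ := ih ((piece F hF).e y) _ j' cov' h
      have hg : gg (piece F hF) t x = (piece F hF).e y := rfl
      refine ⟨r + 1, jj, h1, ⟨?_, ?_⟩, ?_⟩
      · intro i hi l
        rcases i with _ | i
        · exact hnp l
        · rw [Function.iterate_succ_apply, hg]
          exact h2.np i (by omega) l
      · rw [Function.iterate_succ_apply, hg]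
        exact h2.fin
      · intro v
        rw [h3, hcov]
        constructor
        · rintro ((h4 | h4) | ⟨i, hi, h4⟩)
          · exact Or.inl h4
          · exact Or.inr ⟨0, by omega, h4⟩
          · refine Or.inr ⟨i + 1, by omega, ?_⟩
            rw [Function.iterate_succ_apply, hg]
            exact h4
        · rintro (h4 | ⟨i, hi, h4⟩)
          · exact Or.inl (Or.inl h4)
          · rcases i with _ | i
            · exact Or.inl (Or.inr h4)
            · rw [Function.iterate_succ_apply, hg] at h4
              exact Or.inr ⟨i, by omega, h4⟩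
    · obtain ⟨p, hp⟩ := Nat.exists_eq_succ_of_ne_zero hP
      rw [hp] at h
      simp only [Option.some.injEq, Prod.mk.injEq] at h
      obtain ⟨h1, h2⟩ := h
      have h3 := hF.pt y y.2 hP
      rw [hp] at h3
      have hpk : p < F.k := by omega
      refine ⟨0, ⟨p, hpk⟩, h1, ⟨fun i hi => absurd hi (by omega), ?_⟩, ?_⟩
      · apply Fin.ext
        have : d6 F.Q (p.succ - 1) = y := h3.1
        rw [Nat.succ_sub_one] at this
        exact this.symm
      · intro v
        rw [← h2, hcov]
        constructor
        · rintro (h4 | h4)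
          · exact Or.inl h4
          · exact Or.inr ⟨0, le_rfl, h4⟩
        · rintro (h4 | ⟨i, hi, h4⟩)
          · exact Or.inl h4
          · have : i = 0 := by omega
            subst this
            exact Or.inr h4

lemma k_le (hF : CodeOK F) : F.k ≤ 15 := by
  by_contra h
  have h1 := (hF.q 15 (by omega)).2
  have h2 := d4_lt F.P (d6 F.Q 15)
  omega

/-- what the loop computes -/
lemma trs_loop (hu : ∀ x : Fin (3 * F.n), u x = t x) :
    ∀ (f j m cov m' cov' : ℕ), j + f = F.k → (∀ i, j ≤ i → d4 m i = 0) →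
      trs F u f j m cov = some (m', cov') →
      (∀ i < j, d4 m' i = d4 m i) ∧
      (∀ i : Fin F.k, j ≤ i → t ((piece F hF).q i) = false → d4 m' i = i) ∧
      (∀ i : Fin F.k, j ≤ i → t ((piece F hF).q i) = true →
        ∃ (r : ℕ) (jj : Fin F.k), d4 m' i = jj ∧ Walk (piece F hF) t ((piece F hF).q i) r jj) ∧
      (∀ v, tb cov' v = true ↔ tb cov v = true ∨ ∃ (i : Fin F.k) (r : ℕ) (jj : Fin F.k), j ≤ i ∧
        t ((piece F hF).q i) = true ∧ Walk (piece F hF) t ((piece F hF).q i) r jj ∧
        ∃ l ≤ r, (((gg (piece F hF) t)^[l] ((piece F hF).q i) : Fin (3 * F.n)) : ℕ) / 3 = v) := by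
  have hk := k_le hF
  intro f
  induction f with
  | zero =>
    intro j m cov m' cov' hj hm h
    have h0 : trs F u 0 j m cov = some (m, cov) := rfl
    rw [h0] at h
    simp only [Option.some.injEq, Prod.mk.injEq] at h
    obtain ⟨rfl, rfl⟩ := h
    refine ⟨fun _ _ => rfl, fun i hi => absurd i.2 (by omega), fun i hi => absurd i.2 (by omega),
      fun v => ⟨Or.inl, ?_⟩⟩
    rintro (h | ⟨i, _, _, hi, _⟩)
    · exact h
    · exact absurd i.2 (by omega)
  | succ f ih =>
    intro j m cov m' cov' hj hm h
    have hjk : j < F.k := by omega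
    have hQ : u (d6 F.Q j) = t ((piece F hF).q ⟨j, hjk⟩) := hu ((piece F hF).q ⟨j, hjk⟩)
    have h0 : trs F u (f + 1) j m cov = cond (u (d6 F.Q j))
      (match tr F u F.n (d6 F.Q j) cov with
        | none => none
        | some (j', cov') => trs F u f (j + 1) (m ||| (j' <<< (4 * j))) cov')
      (trs F u f (j + 1) (m ||| (j <<< (4 * j))) cov) := rfl
    rw [h0, hQ] at h
    have hdig : ∀ v i, v < 16 → d4 (m ||| (v <<< (4 * j))) i = d4 m i ||| (if i = j then v else 0) :=
      fun v i hv => by rw [d4_lor, d4_shift v j i hv]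
    cases hc : t ((piece F hF).q ⟨j, hjk⟩) with
    | false =>
      rw [hc, cond_false] at h
      obtain ⟨a1, a2, a3, a4⟩ := ih (j + 1) _ _ m' cov' (by omega) (by
        intro i hi
        rw [hdig j i (by omega), hm i (by omega), if_neg (by omega)]
        rfl) h
      refine ⟨?_, ?_, ?_, ?_⟩
      · intro i hi
        rw [a1 i (by omega), hdig j i (by omega), if_neg (by omega), Nat.or_zero]
      · intro i hi ht
        rcases Nat.lt_or_ge j i with h1 | h1
        · exact a2 i h1 ht
        · have h2 : (i : ℕ) = j := by omega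
          rw [h2, a1 j (by omega), hdig j j (by omega), hm j le_rfl, if_pos rfl, Nat.zero_or]
      · intro i hi ht
        rcases Nat.lt_or_ge j i with h1 | h1
        · exact a3 i h1 ht
        · exfalso
          have h2 : i = ⟨j, hjk⟩ := Fin.ext (by change (i : ℕ) = j; omega)
          rw [h2, hc] at ht
          exact absurd ht (by simp)
      · intro v
        rw [a4]
        constructor
        · rintro (h1 | ⟨i, r, jj, h1, h2, h3⟩)
          · exact Or.inl h1
          · exact Or.inr ⟨i, r, jj, by omega, h2, h3⟩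
        · rintro (h1 | ⟨i, r, jj, h1, h2, h3⟩)
          · exact Or.inl h1
          · refine Or.inr ⟨i, r, jj, ?_, h2, h3⟩
            rcases Nat.lt_or_ge j i with h4 | h4
            · exact h4
            · exfalso
              have h5 : i = ⟨j, hjk⟩ := Fin.ext (by change (i : ℕ) = j; omega)
              rw [h5, hc] at h2
              exact absurd h2 (by simp)
    | true =>
      rw [hc, cond_true] at h
      cases htr : tr F u F.n (d6 F.Q j) cov with
      | none =>
        rw [htr] at h
        exact absurd h (by simp)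
      | some q =>
        obtain ⟨j', cov1⟩ := q
        rw [htr] at h
        simp only at h
        obtain ⟨r0, jj0, b1, b2, b3⟩ := tr_spec hF hu F.n ((piece F hF).q ⟨j, hjk⟩) cov j' cov1 htr
        have hj16 : j' < 16 := by
          have := jj0.2
          omega
        obtain ⟨a1, a2, a3, a4⟩ := ih (j + 1) _ _ m' cov' (by omega) (by
          intro i hi
          rw [hdig j' i hj16, hm i (by omega), if_neg (by omega)]
          rfl) h
        have hmj : d4 m' j = jj0 := by
          rw [a1 j (by omega), hdig j' j hj16, hm j le_rfl, if_pos rfl, Nat.zero_or, b1]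
        refine ⟨?_, ?_, ?_, ?_⟩
        · intro i hi
          rw [a1 i (by omega), hdig j' i hj16, if_neg (by omega), Nat.or_zero]
        · intro i hi ht
          rcases Nat.lt_or_ge j i with h1 | h1
          · exact a2 i h1 ht
          · exfalso
            have h2 : i = ⟨j, hjk⟩ := Fin.ext (by change (i : ℕ) = j; omega)
            rw [h2, hc] at ht
            exact absurd ht (by simp)
        · intro i hi ht
          rcases Nat.lt_or_ge j i with h1 | h1
          · exact a3 i h1 ht
          · have h2 : i = ⟨j, hjk⟩ := Fin.ext (by change (i : ℕ) = j; omega)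
            subst h2
            exact ⟨r0, jj0, hmj, b2⟩
        · intro v
          rw [a4, b3]
          constructor
          · rintro ((h1 | ⟨l, hl, h1⟩) | ⟨i, r, jj, h1, h2, h3⟩)
            · exact Or.inl h1
            · exact Or.inr ⟨⟨j, hjk⟩, r0, jj0, le_rfl, hc, b2, l, hl, h1⟩
            · exact Or.inr ⟨i, r, jj, by omega, h2, h3⟩
          · rintro (h1 | ⟨i, r, jj, h1, h2, h3, l, hl, h4⟩)
            · exact Or.inl (Or.inl h1)
            · rcases Nat.lt_or_ge j i with h5 | h5
              · exact Or.inr ⟨i, r, jj, h5, h2, h3, l, hl, h4⟩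
              · left; right
                have h6 : i = ⟨j, hjk⟩ := Fin.ext (by change (i : ℕ) = j; omega)
                subst h6
                refine ⟨l, ?_, h4⟩
                -- both walks have the same length
                by_contra hlt
                exact h3.np r0 (by omega) jj0 b2.fin

lemma nx_div (x : ℕ) : nx x / 3 = x / 3 := by
  have h : nx x = 3 * (x / 3) + (x % 3 + 1) % 3 := rfl
  omega

lemma same_vertex (a b : Fin (3 * F.n)) (h : (a : ℕ) / 3 = (b : ℕ) / 3) :
    b = a ∨ b = (piece F hF).s a ∨ b = (piece F hF).s ((piece F hF).s a) := by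
  have h1 : (((piece F hF).s a : Fin (3 * F.n)) : ℕ) = nx a := rfl
  have h2 : (((piece F hF).s ((piece F hF).s a) : Fin (3 * F.n)) : ℕ) = nx (nx a) := rfl
  have hn : ∀ x, nx x = 3 * (x / 3) + (x % 3 + 1) % 3 := fun _ => rfl
  have h3 : (b : ℕ) = a ∨ (b : ℕ) = nx a ∨ (b : ℕ) = nx (nx a) := by
    rw [hn (nx a), hn a]
    omega
  rcases h3 with h4 | h4 | h4
  · exact Or.inl (Fin.ext h4)
  · exact Or.inr (Or.inl (Fin.ext h4))
  · exact Or.inr (Or.inr (Fin.ext h4))

lemma oo_div (x : Fin (3 * F.n)) :
    ((oo (piece F hF) t x : Fin (3 * F.n)) : ℕ) / 3 = (x : ℕ) / 3 := by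
  have h1 : (((piece F hF).s x : Fin (3 * F.n)) : ℕ) = nx x := rfl
  have h2 : (((piece F hF).s ((piece F hF).s x) : Fin (3 * F.n)) : ℕ) = nx (nx x) := rfl
  unfold oo
  split_ifs
  · rw [h1, nx_div]
  · rw [h2, nx_div, nx_div]

end prog

end Trs

open Trs in
/-- FS-2 -/
theorem trs_spec (F : Code) (hF : CodeOK F) (t : Fin (3 * F.n) → Bool) (ht : FacF (piece F hF) t)
    (u : ℕ → Bool) (hu : ∀ x : Fin (3 * F.n), u x = t x) (m cov : ℕ)
    (h : trs F u F.k 0 0 0 = some (m, cov)) : TrSpec F hF t m cov := by
  have hd0 : ∀ i, d4 0 i = 0 := by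
    intro i
    apply Nat.eq_of_testBit_eq
    intro l
    rw [d4_testBit, Nat.zero_testBit, Nat.zero_testBit, Bool.and_false]
  obtain ⟨_, a2, a3, a4⟩ := trs_loop hF hu F.k 0 0 0 m cov (by omega) (fun i _ => hd0 i) h
  have tf : ∀ j : Fin F.k, t ((piece F hF).q j) = false → d4 m j = j :=
    fun j hj => a2 j (Nat.zero_le _) hj
  have tt : ∀ j : Fin F.k, t ((piece F hF).q j) = true → ∃ (r : ℕ) (jj : Fin F.k),
      d4 m j = jj ∧ Walk (piece F hF) t ((piece F hF).q j) r jj :=
    fun j hj => a3 j (Nat.zero_le _) hj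
  have used' : ∀ (j jj : Fin F.k) (r : ℕ), t ((piece F hF).q j) = true →
      Walk (piece F hF) t ((piece F hF).q j) r jj → t ((piece F hF).q jj) = true := by
    intro j jj r hj hW
    rw [← hW.fin]
    exact (oo_spec ht (used ht hW hj r le_rfl)).1
  have cnend : ∀ (j jj : Fin F.k) (r : ℕ), t ((piece F hF).q j) = true →
      Walk (piece F hF) t ((piece F hF).q j) r jj →
      Cn (piece F hF) t ((piece F hF).q j) ((piece F hF).q jj) := by
    intro j jj r hj hW
    rw [← hW.fin]
    exact (conn ht hj hW r le_rfl).2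
  refine ⟨?_, ?_, ?_, ?_, ?_, ?_, ?_⟩
  · intro j
    cases hj : t ((piece F hF).q j) with
    | false => rw [tf j hj]; exact j.2
    | true =>
      obtain ⟨r, jj, h1, _⟩ := tt j hj
      rw [h1]; exact jj.2
  · intro j
    cases hj : t ((piece F hF).q j) with
    | false => rw [tf j hj]; exact tf j hj
    | true =>
      obtain ⟨r, jj, h1, h2⟩ := tt j hj
      have hjj := used' j jj r hj h2
      obtain ⟨r', jj', h3, h4⟩ := tt jj hjj
      rw [h1, h3]
      have c1 := cnend j jj r hj h2
      have c2 := cnend jj jj' r' hjj h4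
      have c3 : Cn (piece F hF) t ((piece F hF).q j) ((piece F hF).q jj') := c1.trans c2
      rw [cn_iff ht hj rfl h2] at c3
      rcases ports h2 c3 with h5 | h5
      · rw [(piece F hF).qi h5]
      · exact absurd h5 (ne ht hjj rfl h4)
  · intro j
    cases hj : t ((piece F hF).q j) with
    | false => simp [tf j hj]
    | true =>
      obtain ⟨r, jj, h1, h2⟩ := tt j hj
      simp only [true_iff]
      rw [h1]
      intro h3
      exact ne ht hj rfl h2 (Fin.ext h3)
  · intro j i hi hj
    obtain ⟨r, jj, h1, h2⟩ := tt j hj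
    have h3 : i = jj := Fin.ext (by rw [hi, h1])
    rw [h3]
    exact cnend j jj r hj h2
  · intro i j hi hc
    obtain ⟨r, jj, h1, h2⟩ := tt i hi
    rw [cn_iff ht hi rfl h2] at hc
    rcases ports h2 hc with h5 | h5
    · left
      rw [(piece F hF).qi h5]
    · right
      rw [h1, h5]
  · intro x hx
    rw [a4]
    constructor
    · rintro (h1 | ⟨j, r, jj, _, hj, hW, l, hl, h1⟩)
      · rw [tb_eq, Nat.zero_testBit] at h1
        exact absurd h1 (by simp)
      · refine ⟨j, hj, ?_⟩
        have hU := used ht hW hj l hl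
        have hc := conn ht hj hW l hl
        rcases same_vertex hF _ x h1 with h2 | h2
        · rw [h2]; exact hc.1
        · rw [(oo_spec ht hU).2.2.2 x h2 hx]
          exact hc.2
    · rintro ⟨j, hj, hc⟩
      obtain ⟨r, jj, h1, h2⟩ := tt j hj
      rw [cn_iff ht hj rfl h2] at hc
      obtain ⟨l, hl, h3⟩ := hc
      refine Or.inr ⟨j, r, jj, Nat.zero_le _, hj, h2, l, hl, ?_⟩
      rcases h3 with h3 | h3
      · rw [h3]
      · rw [h3, oo_div]
  · apply Nat.lt_pow_two_of_testBit
    intro i hi
    rw [← tb_eq]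
    by_contra hcon
    rw [Bool.not_eq_false, a4] at hcon
    rcases hcon with h1 | ⟨j, r, jj, _, hj, hW, l, hl, h1⟩
    · rw [tb_eq, Nat.zero_testBit] at h1
      exact absurd h1 (by simp)
    · have := ((gg (piece F hF) t)^[l] ((piece F hF).q j)).2
      omega

end Pool.Agent.Helper17.CT
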